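import Mathlib

set_option autoImplicit false

open Finset

namespace Pool.Agent.Results.MP_88b6d1_co.Exact

/-- The `0/1` matrix of a transformation `f`: entry `(i, j)` is `1` iff `f i = j`. -/
def M {n : ℕ} (f : Fin n → Fin n) : Matrix (Fin n) (Fin n) ℕ :=
  fun i j => if f i = j then 1 else 0

/-- `k` matrices, each the matrix of a transformation or the transpose of one, have a Boolean sum
with a `1` in every position `(i, j)` with `i ≤ j`. -/
def Covers (n k : ℕ) : Prop :=
  ∃ A : Fin k → Matrix (Fin n) (Fin n) ℕ, (∀ t, ∃ f, A t = M f ∨ A t = (M f).transpose) ∧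
    ∀ i j, i ≤ j → ∃ t, A t i j = 1

lemma card_ge (n m : ℕ) : (univ.filter fun j : Fin n => m ≤ j.val).card = n - m := by
  rw [card_filter, Fin.sum_univ_eq_sum_range (fun j => if m ≤ j then 1 else 0), ← card_filter,
    ← Nat.card_Ico]
  congr 1
  ext j
  simp [and_comm]

lemma card_lt' (n m : ℕ) (h : m ≤ n) : (univ.filter fun j : Fin n => j.val < m).card = m := by
  have h1 := card_filter_add_card_filter_not (s := univ) fun j : Fin n => m ≤ j.val
  simp only [not_le, card_ge, card_univ, Fintype.card_fin] at h1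
  omega

lemma s1 (x y : ℕ) (h : y ≤ x) : 2 * ∑ j ∈ range y, min x (j + 1) = y * (y + 1) := by
  induction y with
  | zero => simp
  | succ y ih => rw [sum_range_succ, mul_add, ih (by omega), min_eq_right h]; ring

lemma s2 (x y : ℕ) (h : x ≤ y) : 2 * ∑ j ∈ range y, min x (j + 1) + x * x = 2 * x * y + x := by
  induction y, h using Nat.le_induction with
  | base => rw [s1 x x le_rfl]; ring
  | succ y h ih => rw [sum_range_succ, min_eq_left (by omega)]; linarith

lemma s3 (a b d c : ℕ) (h : d * (d + 1) ≤ 2 * (a * b)) (hc : c ≤ a + b + d) :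
    ∑ i : Fin (a + b + d), (min c (a + b + d - i) - a) ≤ c * b := by
  rw [Fin.sum_univ_eq_sum_range (fun i => min c (a + b + d - i) - a), ← sum_range_reflect,
    sum_congr rfl (g := fun i => min c (i + 1) - a)
      (fun i hi => by have := mem_range.1 hi; omega)]
  rcases le_total c a with h1 | h1
  · rw [sum_eq_zero fun i _ => by omega]
    omega
  · obtain ⟨x, rfl⟩ := Nat.exists_eq_add_of_le h1
    rw [add_assoc, sum_range_add, sum_eq_zero fun i hi => by have := mem_range.1 hi; omega,
      sum_congr rfl (g := fun i => min x (i + 1)) (fun i _ => by omega)]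
    have h2 := s2 x (b + d) (by omega)
    have h3 : (0 : ℤ) ≤ (x - d) * (x - d - 1) := by
      rcases le_or_gt (x : ℤ) d with h | h
      · exact mul_nonneg_of_nonpos_of_nonpos (by omega) (by omega)
      · exact mul_nonneg (by omega) (by omega)
    zify at h h2 ⊢
    nlinarith

lemma upper (a b d : ℕ) (h : d * (d + 1) ≤ 2 * (a * b)) : Covers (a + b + d) (a + b) := by
  set n := a + b + d
  let t : {p : Fin n × Fin n // p.1 ≤ p.2} → Finset ((Fin n × Fin a) ⊕ (Fin n × Fin b)) :=
    fun p => (({p.1.1} : Finset (Fin n)) ×ˢ univ).disjSum (({p.1.2} : Finset (Fin n)) ×ˢ univ)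
  obtain ⟨f, hf, hf2⟩ := (all_card_le_biUnion_card_iff_exists_injective t).1 (by
    intro S
    have e : S.biUnion t = ((S.image fun p => p.1.1) ×ˢ univ).disjSum
        ((S.image fun p => p.1.2) ×ˢ univ) := by
      ext (q | q) <;>
        simp only [t, mem_biUnion, inl_mem_disjSum, inr_mem_disjSum, mem_product, mem_singleton,
          mem_univ, and_true, mem_image, eq_comm]
    rw [e, card_disjSum, card_product, card_product, card_univ, card_univ, Fintype.card_fin,
      Fintype.card_fin, card_eq_sum_card_image (fun p => p.1.1) S]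
    set C := S.image fun p => p.1.2
    have hC : C.card ≤ n := by simpa using card_le_univ C
    have h1 : ∀ i : Fin n, (S.filter fun p => p.1.1 = i).card ≤ a + (min C.card (n - i) - a) := by
      intro i
      have inj : Set.InjOn (fun p : {p : Fin n × Fin n // p.1 ≤ p.2} => p.1.2)
          (S.filter fun p => p.1.1 = i) := fun p hp q hq hpq =>
        Subtype.ext (Prod.ext ((mem_filter.1 hp).2.trans (mem_filter.1 hq).2.symm) hpq)
      have h2 := card_le_card_of_injOn (t := C) _
        (fun p hp => mem_image_of_mem _ (mem_filter.1 hp).1) inj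
      have h3 := card_le_card_of_injOn (t := univ.filter fun j : Fin n => i.val ≤ j.val) _
        (fun p hp => mem_filter.2 ⟨mem_univ _, (mem_filter.1 hp).2 ▸ p.2⟩) inj
      rw [card_ge] at h3
      omega
    refine (sum_le_sum fun i _ => h1 i).trans ?_
    rw [sum_add_distrib, sum_const, smul_eq_mul]
    exact Nat.add_le_add_left ((sum_le_sum_of_subset (subset_univ _)).trans (s3 a b d _ h hC)) _)
  have h1 : ∀ (s : Fin a) (i : Fin n), ∃ j, ∀ p, f p = Sum.inl (i, s) → p.1.2 = j := by
    intro s i
    by_cases h : ∃ p, f p = Sum.inl (i, s)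
    · obtain ⟨p, hp⟩ := h
      exact ⟨p.1.2, fun q hq => by rw [hf (hq.trans hp.symm)]⟩
    · exact ⟨i, fun q hq => absurd ⟨q, hq⟩ h⟩
  have h2 : ∀ (s : Fin b) (j : Fin n), ∃ i, ∀ p, f p = Sum.inr (j, s) → p.1.1 = i := by
    intro s j
    by_cases h : ∃ p, f p = Sum.inr (j, s)
    · obtain ⟨p, hp⟩ := h
      exact ⟨p.1.1, fun q hq => by rw [hf (hq.trans hp.symm)]⟩
    · exact ⟨j, fun q hq => absurd ⟨q, hq⟩ h⟩
  choose g hg using h1
  choose g' hg' using h2
  refine ⟨Fin.append (fun s => M (g s)) (fun s => (M (g' s)).transpose), fun s => ?_,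
    fun i j hij => ?_⟩
  · refine Fin.addCases (fun s => ⟨g s, Or.inl ?_⟩) (fun s => ⟨g' s, Or.inr ?_⟩) s <;> simp
  · have h3 := hf2 ⟨(i, j), hij⟩
    rcases hq : f ⟨(i, j), hij⟩ with q | q <;> rw [hq] at h3
    · have h4 : q.1 = i := by
        simpa only [t, inl_mem_disjSum, mem_product, mem_singleton, mem_univ, and_true] using h3
      have := hg q.2 i _ (by rw [hq, ← h4])
      exact ⟨Fin.castAdd b q.2, by simp [M, ← this]⟩
    · have h4 : q.1 = j := by
        simpa only [t, inr_mem_disjSum, mem_product, mem_singleton, mem_univ, and_true] using h3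
      have := hg' q.2 j _ (by rw [hq, ← h4])
      exact ⟨Fin.natAdd a q.2, by simp [M, ← this]⟩

lemma s4 (a d : ℕ) : 2 * ∑ s ∈ range d, (a + d - s) = 2 * (a * d) + d * (d + 1) := by
  rw [← sum_range_reflect, sum_congr rfl (g := fun s => a + (s + 1))
    (fun i hi => by have := mem_range.1 hi; omega), sum_add_distrib, mul_add]
  have := s1 d d le_rfl
  rw [sum_congr rfl (g := fun s => s + 1) (fun i hi => by have := mem_range.1 hi; omega)] at this
  rw [this]
  simp [mul_comm]

lemma lower (k d : ℕ) (h : Covers (k + d) k) : 2 * (d * (d + 1)) ≤ k * k := by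
  obtain ⟨A, h1, h2⟩ := h
  choose g hg using h1
  classical
  set Ta := univ.filter fun t => A t = M (g t)
  set Tb := univ.filter fun t => ¬ A t = M (g t)
  have hk : Ta.card + Tb.card = k := by
    simpa using card_filter_add_card_filter_not (s := univ) fun t => A t = M (g t)
  set a := Ta.card
  set b := Tb.card
  let Q := univ.filter fun p : Fin (k + d) × Fin (k + d) =>
    p.1.val < b + d ∧ max p.1.val b ≤ p.2.val
  have hQ : Q.card = b * (a + d) + ∑ s ∈ range d, (a + d - s) := by
    rw [card_filter, Fintype.sum_prod_type, sum_congr rfl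
      (g := fun i : Fin (k + d) => if i.val < b + d then k + d - max i.val b else 0)
      (fun i _ => by
        split_ifs with h
        · simp only [h, true_and]
          rw [← card_filter, card_ge]
        · simp [h]),
      Fin.sum_univ_eq_sum_range (fun i => if i < b + d then k + d - max i b else 0),
      show k + d = b + d + a by omega, sum_range_add, sum_range_add,
      sum_congr rfl (g := fun _ => a + d) (fun i hi => by
        have := mem_range.1 hi
        rw [if_pos (by omega)]
        omega),
      sum_congr rfl (s₁ := range d) (g := fun s => a + d - s) (fun i hi => by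
        have := mem_range.1 hi
        rw [if_pos (by omega)]
        omega),
      sum_eq_zero (s := range a) (fun i _ => by rw [if_neg (by omega)])]
    simp
  have h3 : Q ⊆ (((univ.filter fun i : Fin (k + d) => i.val < b + d) ×ˢ Ta).image
      fun q => (q.1, g q.2 q.1)) ∪ (((univ.filter fun i : Fin (k + d) => b ≤ i.val) ×ˢ Tb).image
      fun q => (g q.2 q.1, q.1)) := by
    rintro ⟨i, j⟩ hp
    obtain ⟨h4, h5⟩ := (mem_filter.1 hp).2
    simp only [max_le_iff] at h4 h5
    obtain ⟨t, ht⟩ := h2 i j h5.1
    by_cases h6 : A t = M (g t)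
    · rw [h6] at ht
      have : g t i = j := by simpa [M] using ht
      exact mem_union_left _ (mem_image.2 ⟨(i, t), by simp [Ta, h4, h6], by simp [this]⟩)
    · rw [(hg t).resolve_left h6] at ht
      have : g t j = i := by simpa [M] using ht
      exact mem_union_right _ (mem_image.2 ⟨(j, t), by simp [Tb, h5.2, h6], by simp [this]⟩)
  have h4 := (card_le_card h3).trans ((card_union_le _ _).trans
    (Nat.add_le_add card_image_le card_image_le))
  rw [card_product, card_product, card_ge, card_lt' _ _ (by omega), hQ,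
    show k + d - b = a + d by omega] at h4
  have h5 := s4 a d
  change _ ≤ (b + d) * a + (a + d) * b at h4
  rw [← hk]
  nlinarith [sq_nonneg ((a : ℤ) - b)]

/-- `m(n) = 2 n + 1 - ⌊√(2 n² + 2 n + 1)⌋`. -/
theorem result (n : ℕ) :
    IsLeast {k | Covers n k} (2 * n + 1 - Nat.sqrt (2 * n ^ 2 + 2 * n + 1)) := by
  set r := Nat.sqrt (2 * n ^ 2 + 2 * n + 1)
  have h1 : r * r ≤ 2 * n ^ 2 + 2 * n + 1 := Nat.sqrt_le _
  have h2 : n + 1 ≤ r := Nat.le_sqrt.2 (by nlinarith)
  have h3 : r ≤ 2 * n + 1 := by
    by_contra h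
    nlinarith
  constructor
  · obtain ⟨d, hd⟩ := Nat.exists_eq_add_of_le h2
    obtain ⟨k, hk⟩ := Nat.exists_eq_add_of_le h3
    have h4 : n = k / 2 + (k + 1) / 2 + d := by omega
    have h5 : 2 * n + 1 - r = k / 2 + (k + 1) / 2 := by omega
    have h6 : 2 * (d * (d + 1)) ≤ k * k := by
      rw [hd, show n = k + d by omega] at h1
      nlinarith
    rw [h5]
    change Covers n _
    rw [h4]
    refine upper _ _ _ ?_
    obtain ⟨e, he⟩ := Nat.even_mul_succ_self d
    rcases Nat.even_or_odd' k with ⟨j, rfl | rfl⟩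
    · rw [show 2 * j / 2 = j by omega, show (2 * j + 1) / 2 = j by omega]
      nlinarith
    · rw [show (2 * j + 1) / 2 = j by omega, show (2 * j + 1 + 1) / 2 = j + 1 by omega]
      have : (2 * j + 1) * (2 * j + 1) = 4 * (j * (j + 1)) + 1 := by ring
      omega
  · intro k hk
    rcases le_total n k with h | h
    · omega
    · obtain ⟨d, rfl⟩ := Nat.exists_eq_add_of_le h
      have h4 := lower k d hk
      have h5 : k + d + d + 1 ≤ r := Nat.le_sqrt.2 (by nlinarith)
      omega

end Pool.Agent.Results.MP_88b6d1_co.Exact
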